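import Mathlib

namespace Pool.Agent.Results.MP_308f9e_co.TwoTriangles

open Finset Polynomial

section general

variable (P : Type) [Fintype P] [DecidableEq P] [PartialOrder P] [OrderBot P] [DecidableLE P]
  [DecidableLT P]

/-- Every maximal interval [0,m] of P is a Boolean lattice of rank n. -/
def IsSimplicial (n : ℕ) : Prop :=
  ∀ m : P, IsMax m → Nonempty (Set.Iic m ≃o Finset (Fin n))

/-- The rank of x in a simplicial poset: the number of atoms below x. -/
def rk (x : P) : ℕ :=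
  (univ.filter fun a : P => a ≤ x ∧ a ≠ ⊥ ∧ ∀ b : P, b < a → b = ⊥).card

/-- Flag f-vector of P with a top adjoined: for T ⊆ {1,...,n}, the number of chains whose set of
ranks is T, a chain being listed as a strictly increasing map t ↦ (its element of rank t). -/
def alpha (T : Finset ℕ) : ℕ :=
  (univ.filter fun c : T → P => (∀ t : T, rk P (c t) = t) ∧ ∀ s t : T, s < t → c s < c t).card

/-- Flag h-vector. -/
def beta (S : Finset ℕ) : ℤ :=
  ∑ T ∈ S.powerset, (-1) ^ (S \ T).card * (alpha P T : ℤ)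

/-- The augmented Chow polynomial H^aug of P with a top adjoined. -/
noncomputable def Haug (n : ℕ) : ℤ[X] :=
  ∑ S ∈ (Icc 1 n).powerset.filter (fun S => ∀ i ∈ S, i + 1 ∉ S),
    C (beta P S) * X ^ S.card * (1 + X) ^ (n + 1 - 2 * S.card)

end general

/-- The face poset of the disjoint union of the triangles 012 and 345. -/
abbrev Q : Type := {s : Finset (Fin 6) // s ⊆ {0, 1, 2} ∨ s ⊆ {3, 4, 5}}

instance : OrderBot Q where
  bot := ⟨∅, Or.inl (empty_subset _)⟩
  bot_le := fun s => empty_subset s.1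

section proofs

theorem simplicial : IsSimplicial Q 3 := by
  have key : ∀ (e : Fin 3 ↪ Fin 6) (m : Q), m.1 = univ.map e →
      Nonempty (Set.Iic m ≃o Finset (Fin 3)) := by
    intro e m hm
    have hs : ∀ s : Finset (Fin 3), s.map e ⊆ m.1 := fun s => hm ▸ map_subset_map.2 (subset_univ s)
    let f : Finset (Fin 3) ↪o Set.Iic m := OrderEmbedding.ofMapLEIff
      (fun s => ⟨⟨s.map e, m.2.imp (hs s).trans (hs s).trans⟩, hs s⟩)
      (fun a b => map_subset_map)
    refine ⟨(RelIso.ofSurjective f ?_).symm⟩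
    rintro ⟨⟨s, h1⟩, h2⟩
    have h3 : s ⊆ univ.map e := hm ▸ h2
    obtain ⟨u, -, rfl⟩ := subset_map_iff.1 h3
    exact ⟨u, rfl⟩
  rintro ⟨s, hs⟩ hm
  rcases hs with h | h
  · have : ({0, 1, 2} : Finset (Fin 6)) ⊆ s := hm (b := ⟨{0, 1, 2}, Or.inl le_rfl⟩) h
    exact key ⟨![0, 1, 2], by decide⟩ _ ((Subset.antisymm h this).trans (by decide))
  · have : ({3, 4, 5} : Finset (Fin 6)) ⊆ s := hm (b := ⟨{3, 4, 5}, Or.inr le_rfl⟩) h
    exact key ⟨![3, 4, 5], by decide⟩ _ ((Subset.antisymm h this).trans (by decide))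

theorem b0 : beta Q ∅ = 1 := by decide +kernel
theorem b1 : beta Q {1} = 5 := by decide +kernel
theorem b2 : beta Q {2} = 5 := by decide +kernel
theorem b3 : beta Q {3} = 1 := by decide +kernel
theorem b13 : beta Q {1, 3} = -1 := by decide +kernel

theorem Haug_eq : Haug Q 3 = X ^ 4 + 15 * X ^ 3 + 27 * X ^ 2 + 15 * X + 1 := by
  have h : (Icc 1 3).powerset.filter (fun S : Finset ℕ => ∀ i ∈ S, i + 1 ∉ S) =
      {∅, {1}, {2}, {3}, {1, 3}} := by decide +kernel
  rw [Haug, h, sum_insert (by decide), sum_insert (by decide), sum_insert (by decide),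
    sum_insert (by decide), sum_singleton, b0, b1, b2, b3, b13]
  have h2 : ({1, 3} : Finset ℕ).card = 2 := by decide
  simp only [card_empty, card_singleton, h2, map_one, map_neg, map_ofNat]
  ring

end proofs

/-- Two disjoint triangles form a graded simplicial poset of rank 3 whose H^aug has a non-real
root. -/
theorem result : IsSimplicial Q 3 ∧ Haug Q 3 = X ^ 4 + 15 * X ^ 3 + 27 * X ^ 2 + 15 * X + 1 ∧
    ∃ z : ℂ, aeval z (Haug Q 3) = 0 ∧ z.im ≠ 0 := by
  refine ⟨simplicial, Haug_eq, ?_⟩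
  set a : ℝ := (15 - 5 * Real.sqrt 5) / 2 with ha
  have h5 : Real.sqrt 5 ^ 2 = 5 := Real.sq_sqrt (by norm_num)
  have h6 : 2.2 < Real.sqrt 5 := by rw [Real.lt_sqrt (by norm_num)]; norm_num
  have h7 : Real.sqrt 5 < 3 := by rw [Real.sqrt_lt' (by norm_num)]; norm_num
  have h8 : 0 < 4 - a ^ 2 := by nlinarith
  have h9 : Real.sqrt (4 - a ^ 2) ^ 2 = 4 - a ^ 2 := Real.sq_sqrt h8.le
  have h10 : a ^ 2 - 15 * a + 25 = 0 := by rw [ha]; nlinarith
  refine ⟨(-a + Real.sqrt (4 - a ^ 2) * Complex.I) / 2, ?_, ?_⟩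
  · set z : ℂ := (-a + Real.sqrt (4 - a ^ 2) * Complex.I) / 2 with hz
    have e1 : ((Real.sqrt (4 - a ^ 2) : ℝ) : ℂ) ^ 2 = 4 - (a : ℂ) ^ 2 := by exact_mod_cast h9
    have e2 : (a : ℂ) ^ 2 - 15 * a + 25 = 0 := by exact_mod_cast h10
    have e3 : z ^ 2 + a * z + 1 = 0 := by
      rw [hz]
      linear_combination (Complex.I ^ 2 / 4) * e1 + ((4 - (a : ℂ) ^ 2) / 4) * Complex.I_sq
    rw [Haug_eq]
    simp only [map_add, map_mul, map_pow, aeval_X, map_one, map_ofNat]
    linear_combination (z ^ 2 + (15 - a) * z + 1) * e3 + z ^ 2 * e2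
  · have := Real.sqrt_pos.2 h8
    simp
    exact this.ne'

end Pool.Agent.Results.MP_308f9e_co.TwoTriangles
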